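import Mathlib
import Pool.Agent.W811.Nd.Stm

/-!
The top nodes.
-/

set_option autoImplicit false

open Set Pool.Agent.W811.Stu Pool.Agent.W811.Nd

namespace Pool.Agent.W407.Nd

lemma cc_bounds {δ : ℝ} (h : 0 < δ) : δ < cc δ ∧ cc δ < δ + 1 := by
  have h1 := cc_sq δ
  have h2 := cc_pos δ
  constructor <;> nlinarith

/-- two nodes, of types `b` and `true` -/
lemma card_pair {m n : ℕ} {u v u' v' : ℝ} {b : Bool}
    (hne : ((m, (u, v, b)) : ℕ × Nod) ≠ (n, (u', v', true))) :
    ((({(m, (u, v, b)), (n, (u', v', true))} : Finset (ℕ × Nod)).filter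
      (fun C => C.2.2.2 = true)).card = if b = true then 2 else 1) := by
  cases b
  · rw [Finset.filter_insert, Finset.filter_singleton]
    simp
  · rw [Finset.filter_insert, Finset.filter_singleton]
    simp only [if_true]
    rw [Finset.card_pair hne]

theorem topA (hs : TSq) (hb : TB2) (lam : ℝ) (hl : Big lam) : ∃ K0, Top lam dA 0 K0 1 := by
  have hl' : (10 : ℝ) ^ 8 ≤ lam := hl
  obtain ⟨c1, c2⟩ := cc_bounds (δ := lam / 2) (by linarith)
  obtain ⟨u, v, hu, huv, hv, hnode, hcov⟩ := hb lam dA 0 (lam - 1) (lam + 1) hl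
    (fun k => by simp [dA]) rfl (by linarith)
    (by
      intro e he
      obtain ⟨h1, h2⟩ := he
      simp only [orb, lin]
      refine ⟨by norm_num, ?_, ?_, ?_⟩
      · rw [abs_of_nonneg (by linarith)]; linarith
      · rw [abs_of_nonneg (by linarith)]; linarith
      · rw [abs_lt]; constructor <;> linarith)
    (Or.inl (by
      simp only [orb, lin]
      constructor <;> linarith))
  have hN1 : IsNode lam dA 0 (-2, 2, false) := by
    refine ⟨by norm_num, ?_, ?_, ?_, ?_⟩
    · rintro e ⟨h1, h2⟩
      simp only at h1 h2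
      simp only [orb, lin]
      rw [abs_le]; constructor <;> linarith
    · left
      simp only [orb, lin]
      constructor <;> norm_num
    · intro _ e _
      simp only [orb, lin]
      norm_num
    · intro h
      exact absurd h (by simp)
  have hne : ((0, (-2, 2, false)) : ℕ × Nod) ≠ (1, (u, v, true)) := by
    intro h
    exact absurd (congrArg Prod.fst h) (by simp)
  have hdisj : Disjoint (seg ((-2, 2, false) : Nod)) (seg ((u, v, true) : Nod)) := by
    rw [Set.disjoint_left]
    rintro e ⟨_, h2⟩ ⟨h3, _⟩
    simp only at h2 h3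
    linarith
  refine ⟨{(0, (-2, 2, false)), (1, (u, v, true))}, ?_, ?_, ?_, ?_⟩
  · intro C hC
    rw [Finset.mem_insert, Finset.mem_singleton] at hC
    rcases hC with rfl | rfl
    · exact ⟨le_rfl, hN1⟩
    · exact ⟨Nat.zero_le _, hnode⟩
  · intro C hC C' hC' h
    rw [Finset.mem_insert, Finset.mem_singleton] at hC hC'
    rcases hC with rfl | rfl <;> rcases hC' with rfl | rfl
    · exact absurd rfl h
    · exact hdisj
    · exact hdisj.symm
    · exact absurd rfl h
  · intro e he
    by_cases h0 : |(orb dA (lin lam e) 0).y| ≤ 1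
    · refine ⟨(0, (-2, 2, false)), by simp, ?_⟩
      simp only [orb, lin] at h0
      rw [abs_le] at h0
      exact ⟨by show (-2 : ℝ) ≤ e; linarith, by show e ≤ (2 : ℝ); linarith⟩
    · refine ⟨(1, (u, v, true)), by simp, ?_⟩
      have h1 : |(orb dA (lin lam e) 1).y| ≤ 1 := (he 0).resolve_left h0
      have h2 := hs (lam / 2) (lin lam e) (by linarith) (onS_lin lam e)
        (by simp [lin]) (not_le.1 h0) h1
      have h3 := h2.1
      simp only [lin] at h3
      rw [abs_le] at h3
      exact hcov e ⟨by linarith, by linarith⟩ h1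
  · rw [card_pair hne]; simp

lemma orbB1 (lam e : ℝ) : orb dB (lin lam e) 1 = ⟨e / 2, (e - lam) / 2, e * (e - lam) / 2 - 1⟩ := by
  show stepT 1 (lin lam e) = _
  unfold stepT stepS stepR lin
  simp only [Function.iterate_one]
  ext <;> simp only
  ring

theorem topB (hs : TSq) (hb : TB2) (lam : ℝ) (hl : Big lam) : ∃ K0, Top lam dB 1 K0 2 := by
  have hl' : (10 : ℝ) ^ 8 ≤ lam := hl
  have hl0 : 0 < lam := by linarith
  obtain ⟨c1, c2⟩ := cc_bounds (δ := lam / 2) (by linarith)
  have hq0 : 0 < 4 / lam := by positivity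
  have hq1 : 4 / lam ≤ 1 := by rw [div_le_one hl0]; linarith
  have hql : 4 / lam * lam = 4 := by field_simp
  obtain ⟨u, v, hu, huv, hv, hnode, hcov⟩ := hb lam dB 1 (-(4 / lam)) 0 hl
    (fun k => by unfold dB; split_ifs <;> norm_num) rfl (by linarith)
    (by
      intro e he
      obtain ⟨h1, h2⟩ := he
      rw [orbB1]
      simp only
      refine ⟨?_, ?_, ?_, ?_⟩
      · rw [abs_le]; constructor <;> linarith
      · rw [abs_of_nonpos (by linarith)]; linarith
      · rw [abs_of_nonpos (by linarith)]; linarith
      · have h3 : 0 ≤ e * (e - lam) := by nlinarith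
        have h4 : e * (e - lam) ≤ 5 := by nlinarith
        rw [abs_lt]; constructor <;> linarith)
    (Or.inr (by
      rw [orbB1, orbB1]
      simp only
      constructor
      · nlinarith
      · linarith))
  have hN1 : IsNode lam dB 1 (lam - 2, lam + 2, true) := by
    refine ⟨by show lam - 2 < lam + 2; linarith, ?_, ?_, ?_, ?_⟩
    · rintro e ⟨h1, h2⟩
      simp only at h1 h2
      rw [orbB1]
      simp only
      rw [abs_le]; constructor <;> linarith
    · left
      rw [orbB1, orbB1]
      simp only
      constructor <;> ring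
    · intro h
      exact absurd h (by simp)
    · rintro _ e ⟨h1, h2⟩
      simp only at h1 h2
      rw [orbB1]
      simp only
      refine ⟨?_, ?_, ?_⟩
      · rw [abs_of_nonneg (by linarith)]; linarith
      · rw [abs_of_nonneg (by linarith)]; linarith
      · have : 2 * ((e - lam) / 2) * (e / 2) - (e * (e - lam) / 2 - 1) = 1 := by ring
        rw [this]; norm_num
  have hne : ((1, (lam - 2, lam + 2, true)) : ℕ × Nod) ≠ (2, (u, v, true)) := by
    intro h
    exact absurd (congrArg Prod.fst h) (by simp)
  have hdisj : Disjoint (seg ((lam - 2, lam + 2, true) : Nod)) (seg ((u, v, true) : Nod)) := by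
    rw [Set.disjoint_left]
    rintro e ⟨h2, _⟩ ⟨_, h3⟩
    simp only at h2 h3
    linarith
  refine ⟨{(1, (lam - 2, lam + 2, true)), (2, (u, v, true))}, ?_, ?_, ?_, ?_⟩
  · intro C hC
    rw [Finset.mem_insert, Finset.mem_singleton] at hC
    rcases hC with rfl | rfl
    · exact ⟨le_rfl, hN1⟩
    · exact ⟨by norm_num, hnode⟩
  · intro C hC C' hC' h
    rw [Finset.mem_insert, Finset.mem_singleton] at hC hC'
    rcases hC with rfl | rfl <;> rcases hC' with rfl | rfl
    · exact absurd rfl h
    · exact hdisj
    · exact hdisj.symm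
    · exact absurd rfl h
  · intro e he
    by_cases h1 : |(orb dB (lin lam e) 1).y| ≤ 1
    · refine ⟨(1, (lam - 2, lam + 2, true)), by simp, ?_⟩
      rw [orbB1] at h1
      simp only at h1
      rw [abs_le] at h1
      exact ⟨by show lam - 2 ≤ e; linarith, by show e ≤ lam + 2; linarith⟩
    · refine ⟨(2, (u, v, true)), by simp, ?_⟩
      have h0 : |(orb dB (lin lam e) 0).y| ≤ 1 := (he 0).resolve_right h1
      have h2 : |(orb dB (lin lam e) 2).y| ≤ 1 := (he 1).resolve_left h1
      simp only [orb, lin] at h0
      have h3 := hs (lam / 2) (orb dB (lin lam e) 1) (by linarith) ((onS_lin lam e).orb dB 1)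
        (by rw [orbB1]; exact h0) (not_le.1 h1) h2
      have h4 := h3.1
      rw [orbB1] at h4
      simp only at h4
      rw [abs_le] at h4 h0
      have h5 : e ≤ 0 := by
        by_contra hc
        have hc := not_le.1 hc
        have : e * (lam - e) > 0 := mul_pos hc (by linarith)
        nlinarith
      have h6 : -(4 / lam) ≤ e := by
        by_contra hc
        have hc := not_le.1 hc
        have h7 : 4 / lam * (lam - e) < -e * (lam - e) :=
          mul_lt_mul_of_pos_right (by linarith) (by linarith)
        nlinarith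
      exact hcov e ⟨h6, h5⟩ h2
  · rw [card_pair hne]; simp

/-- **The top nodes.** -/
theorem top (hs : TSq) (hb : TB2) : TTop :=
  fun lam hl => ⟨topA hs hb lam hl, topB hs hb lam hl⟩

end Pool.Agent.W407.Nd
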